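import Pool.Agent.L0h94.SP.StmE

/-!
# SP: nested blocks
-/

set_option autoImplicit false

open Polynomial IsDedekindDomain NumberField
open scoped Classical

namespace Pool.Agent.L0h26.SP

open Pool.Agent.N783.PF Pool.Agent.L0h94.SP

variable {F : Type} [Field F] [NumberField F]

lemma goodS_mono {g W W' : ℕ} (h : W ≤ W') {S : Finset ℕ} {𝔮 : ℕ → Ideal (𝓞 F)}
    {r P : ℕ → (𝓞 F)[X]} (hg : GoodS g W' S 𝔮 r P) : GoodS g W S 𝔮 r P := fun q hq => by
  obtain ⟨h1, h2, h3⟩ := hg q hq
  exact ⟨h1, lt_of_le_of_lt h h2, h3⟩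

lemma goodS_congr {g W : ℕ} {S : Finset ℕ} {𝔮 𝔮' : ℕ → Ideal (𝓞 F)}
    {r P r' P' : ℕ → (𝓞 F)[X]} (hg : GoodS g W S 𝔮 r P) (h1 : ∀ q ∈ S, 𝔮' q = 𝔮 q)
    (h2 : ∀ q ∈ S, r' q = r q) (h3 : ∀ q ∈ S, P' q = P q) : GoodS g W S 𝔮' r' P' :=
  fun q hq => by
  rw [h1 q hq, h2 q hq, h3 q hq]
  exact hg q hq

lemma goodS_union {g W : ℕ} {S S' : Finset ℕ} {𝔮 : ℕ → Ideal (𝓞 F)}
    {r P : ℕ → (𝓞 F)[X]} (hg : GoodS g W S 𝔮 r P) (hg' : GoodS g W S' 𝔮 r P) :
    GoodS g W (S ∪ S') 𝔮 r P := fun q hq => by
  rcases Finset.mem_union.1 hq with h | h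
  · exact hg q h
  · exact hg' q h

lemma mem_sup {T : ℕ → Finset ℕ} {i q : ℕ} : q ∈ sup T i ↔ ∃ j < i, q ∈ T j := by
  unfold sup
  simp

theorem t_EXN : S_EXS → S_EXN := by
  intro hE F _ _ W M φ ψ
  induction M with
  | zero =>
    refine ⟨fun _ => ∅, fun _ => ⊥, fun _ => 0, fun _ => 0, ⟨?_, ?_, ?_⟩, ?_⟩
    · intro q hq
      rw [mem_sup] at hq
      obtain ⟨j, hj, _⟩ := hq
      omega
    · intro i hi
      omega
    · intro i hi
      omega
    · intro i hi
      omega
  | succ M ih =>
    obtain ⟨T, 𝔮, r, P, hB, hc⟩ := ih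
    obtain ⟨U, 𝔮', r', P', hG, hU⟩ := hE F 1
      (W + ∑ i ∈ Finset.range (M + 1), φ (sup T i) + (sup T M).sup id) le_rfl (ψ (sup T M))
    have hUW : ∀ q ∈ U, W + ∑ i ∈ Finset.range (M + 1), φ (sup T i) + (sup T M).sup id < q :=
      fun q hq => (hG q hq).2.1
    have hdis : ∀ q ∈ sup T M, q ∉ U := by
      intro q hq hqU
      have h1 := hUW q hqU
      have h2 : id q ≤ (sup T M).sup id := Finset.le_sup hq
      simp only [id] at h2
      omega
    set T' : ℕ → Finset ℕ := fun i => if i = M then U else T i with hT'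
    have hT1 : ∀ i < M, T' i = T i := fun i hi => by
      rw [hT']
      simp only
      rw [if_neg (by omega)]
    have hT2 : T' M = U := by
      rw [hT']
      simp
    have hs1 : ∀ i ≤ M, sup T' i = sup T i := by
      intro i hi
      ext q
      rw [mem_sup, mem_sup]
      constructor
      · rintro ⟨j, hj, hq⟩
        exact ⟨j, hj, by rwa [hT1 j (by omega)] at hq⟩
      · rintro ⟨j, hj, hq⟩
        exact ⟨j, hj, by rwa [hT1 j (by omega)]⟩
    have hs2 : sup T' (M + 1) = sup T M ∪ U := by
      ext q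
      rw [Finset.mem_union, mem_sup, mem_sup]
      constructor
      · rintro ⟨j, hj, hq⟩
        rcases Nat.lt_or_ge j M with h | h
        · exact Or.inl ⟨j, h, by rwa [hT1 j h] at hq⟩
        · have : j = M := by omega
          subst this
          exact Or.inr (by rwa [hT2] at hq)
      · rintro (⟨j, hj, hq⟩ | hq)
        · exact ⟨j, by omega, by rwa [hT1 j hj]⟩
        · exact ⟨M, by omega, by rwa [hT2]⟩
    refine ⟨T', fun q => if q ∈ U then 𝔮' q else 𝔮 q, fun q => if q ∈ U then r' q else r q,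
      fun q => if q ∈ U then P' q else P q, ⟨?_, ?_, ?_⟩, ?_⟩
    · rw [hs2]
      refine goodS_union (goodS_congr hB.good ?_ ?_ ?_)
        (goodS_congr (goodS_mono (by omega) hG) ?_ ?_ ?_)
      · exact fun q hq => if_neg (hdis q hq)
      · exact fun q hq => if_neg (hdis q hq)
      · exact fun q hq => if_neg (hdis q hq)
      · exact fun q hq => if_pos hq
      · exact fun q hq => if_pos hq
      · exact fun q hq => if_pos hq
    · intro i hi j hj hij
      rcases Nat.lt_or_ge i M with h1 | h1 <;> rcases Nat.lt_or_ge j M with h2 | h2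
      · rw [hT1 i h1, hT1 j h2]
        exact hB.disj i h1 j h2 hij
      · have : j = M := by omega
        subst this
        rw [hT1 i h1, hT2, Finset.disjoint_left]
        exact fun q hq => hdis q (mem_sup.2 ⟨i, h1, hq⟩)
      · have : i = M := by omega
        subst this
        rw [hT1 j h2, hT2, Finset.disjoint_right]
        exact fun q hq => hdis q (mem_sup.2 ⟨j, h2, hq⟩)
      · omega
    · intro i hi q hq hqi
      rw [hs1 i (by omega)] at hqi ⊢
      rw [hs2, Finset.mem_union] at hq
      rcases hq with hq | hq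
      · have hiM : i < M := by
          by_contra h
          have : i = M := by omega
          subst this
          exact hqi hq
        exact hB.big i hiM q hq hqi
      · have h1 := hUW q hq
        have h2 : φ (sup T i) ≤ ∑ i ∈ Finset.range (M + 1), φ (sup T i) :=
          Finset.single_le_sum (f := fun i => φ (sup T i)) (fun _ _ => Nat.zero_le _)
            (Finset.mem_range.2 hi)
        omega
    · intro i hi
      rw [hs1 i (by omega)]
      rcases Nat.lt_or_ge i M with h1 | h1
      · rw [hT1 i h1]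
        exact hc i h1
      · have : i = M := by omega
        subst this
        rw [hT2]
        exact hU

end Pool.Agent.L0h26.SP
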